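import Pool.Agent.Lamp28.Group

set_option autoImplicit false

namespace Pool.Agent.Lamp28

/-- Being outside the box of radius R. -/
def Big (R : ℤ) (g : Lamp) : Prop := R < |g.pos| ∨ ∃ z ∈ g.conf, R < |z|

/-- Connected by a walk of big vertices. -/
def Conn (R : ℤ) (g h : Lamp) : Prop := ∃ p : Gam.Walk g h, ∀ v ∈ p.support, Big R v

theorem Conn.refl {R : ℤ} {g : Lamp} (hg : Big R g) : Conn R g g :=
  ⟨SimpleGraph.Walk.nil, by simpa using hg⟩

theorem Conn.symm {R : ℤ} {g h : Lamp} (hg : Conn R g h) : Conn R h g := by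
  obtain ⟨p, hp⟩ := hg
  exact ⟨p.reverse, by simpa using hp⟩

theorem Conn.trans {R : ℤ} {g h k : Lamp} (h1 : Conn R g h) (h2 : Conn R h k) : Conn R g k := by
  obtain ⟨p, hp⟩ := h1
  obtain ⟨q, hq⟩ := h2
  refine ⟨p.append q, fun v hv => ?_⟩
  rw [SimpleGraph.Walk.mem_support_append_iff] at hv
  rcases hv with hv | hv
  · exact hp v hv
  · exact hq v hv

theorem Conn.step {R : ℤ} {g h : Lamp} (hg : Big R g) (hh : Big R h) (ha : CAdj g h) : Conn R g h := by
  refine ⟨SimpleGraph.Walk.cons ((gam_adj' g h).2 ha) SimpleGraph.Walk.nil, fun v hv => ?_⟩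
  simp at hv
  rcases hv with rfl | rfl
  · exact hg
  · exact hh

theorem conn_move_nat {R : ℤ} {A : Finset ℤ} (hA : ∃ z ∈ A, R < |z|) (m : ℤ) (k : ℕ) :
    Conn R ⟨A, m⟩ ⟨A, m + k⟩ := by
  induction k with
  | zero => simpa using Conn.refl (R := R) (g := ⟨A, m⟩) (Or.inr hA)
  | succ k ih =>
    refine ih.trans (Conn.step (Or.inr hA) (Or.inr hA) ?_)
    left
    refine ⟨rfl, Or.inl ?_⟩
    push_cast
    ring

theorem conn_move {R : ℤ} {A : Finset ℤ} (hA : ∃ z ∈ A, R < |z|) (m n : ℤ) :
    Conn R ⟨A, m⟩ ⟨A, n⟩ := by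
  rcases le_total m n with h | h
  · obtain ⟨k, hk⟩ := Int.eq_ofNat_of_zero_le (sub_nonneg.2 h)
    have := conn_move_nat hA m k
    rwa [show m + (k : ℤ) = n by omega] at this
  · obtain ⟨k, hk⟩ := Int.eq_ofNat_of_zero_le (sub_nonneg.2 h)
    have := conn_move_nat hA n k
    rw [show n + (k : ℤ) = m by omega] at this
    exact this.symm

theorem conn_toggle {R : ℤ} {A : Finset ℤ} {m : ℤ} (hm : R < |m|) :
    Conn R ⟨A, m⟩ ⟨symmDiff A {m}, m⟩ :=
  Conn.step (Or.inl hm) (Or.inl hm) (Or.inr ⟨rfl, rfl⟩)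

theorem conn_clean {R p : ℤ} (hp : R < |p|) (A : Finset ℤ) (hA : p ∉ A) :
    Conn R ⟨insert p A, p⟩ ⟨{p}, p⟩ := by
  induction A using Finset.induction_on with
  | empty => exact Conn.refl (Or.inl hp)
  | insert z A hz ih =>
    have hpz : p ≠ z := by
      rintro rfl
      exact hA (Finset.mem_insert_self _ _)
    have hpA : p ∉ A := fun h => hA (Finset.mem_insert_of_mem h)
    have hb1 : ∃ w ∈ insert p (insert z A), R < |w| := ⟨p, Finset.mem_insert_self _ _, hp⟩
    have hb2 : ∃ w ∈ insert p A, R < |w| := ⟨p, Finset.mem_insert_self _ _, hp⟩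
    refine (conn_move hb1 p z).trans ?_
    refine Conn.trans ?_ ((conn_move hb2 z p).trans (ih hpA))
    refine Conn.step (Or.inr hb1) (Or.inr hb2) (Or.inr ⟨rfl, ?_⟩)
    ext w
    simp only [Finset.mem_insert, Finset.mem_symmDiff, Finset.mem_singleton]
    by_cases hw : w = z
    · subst hw
      simp [hpz.symm, hz]
    · simp [hw]

theorem conn_canon {R p : ℤ} (hp : R < |p|) (g : Lamp) (hg : Big R g) :
    Conn R g ⟨{p}, p⟩ := by
  -- first reach a configuration with position p
  have h1 : ∃ A : Finset ℤ, Conn R g ⟨A, p⟩ := by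
    by_cases hA : ∃ z ∈ g.conf, R < |z|
    · exact ⟨g.conf, conn_move hA g.pos p⟩
    · have hm : R < |g.pos| := by
        rcases hg with h | h
        · exact h
        · exact absurd h hA
      have hnot : g.pos ∉ g.conf := fun h => hA ⟨g.pos, h, hm⟩
      have hA' : ∃ z ∈ symmDiff g.conf {g.pos}, R < |z| :=
        ⟨g.pos, by simp [Finset.mem_symmDiff, hnot], hm⟩
      exact ⟨symmDiff g.conf {g.pos}, (conn_toggle (A := g.conf) hm).trans (conn_move hA' g.pos p)⟩
  obtain ⟨A, hA⟩ := h1
  refine hA.trans ?_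
  by_cases hpA : p ∈ A
  · have := conn_clean hp (A.erase p) (Finset.notMem_erase _ _)
    rwa [Finset.insert_erase hpA] at this
  · refine (conn_toggle (A := A) hp).trans ?_
    have : symmDiff A {p} = insert p A := by
      ext w
      simp only [Finset.mem_insert, Finset.mem_symmDiff, Finset.mem_singleton]
      by_cases hw : w = p
      · subst hw; simp [hpA]
      · simp [hw]
    rw [this]
    exact conn_clean hp A hpA

theorem conn_all {R : ℤ} {g h : Lamp} (hR : -1 ≤ R) (hg : Big R g) (hh : Big R h) : Conn R g h := by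
  have hp : R < |R + 1| := by
    rw [abs_of_nonneg (by omega)]
    omega
  exact (conn_canon hp g hg).trans (conn_canon hp h hh).symm

theorem gam_connected : Gam.Connected := by
  have : Nonempty Lamp := ⟨1⟩
  refine SimpleGraph.Connected.mk ?_
  intro g h
  obtain ⟨p, -⟩ := conn_all (R := -1) (g := g) (h := h) le_rfl
    (Or.inl (by have := abs_nonneg g.pos; omega)) (Or.inl (by have := abs_nonneg h.pos; omega))
  exact ⟨p⟩

theorem closure_gens : Subgroup.closure (gens : Set Lamp) = ⊤ := by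
  rw [eq_top_iff]
  intro g _
  have key : ∀ (u v : Lamp) (p : Gam.Walk u v), u ∈ Subgroup.closure (gens : Set Lamp) →
      v ∈ Subgroup.closure (gens : Set Lamp) := by
    intro u v p
    induction p with
    | nil => exact id
    | cons h p ih =>
      intro hu
      apply ih
      obtain ⟨-, s, hs, h1 | h1⟩ := h
      · rw [h1]
        exact mul_mem hu (Subgroup.subset_closure hs)
      · have hs' := Subgroup.subset_closure (k := (gens : Set Lamp)) hs
        rw [h1] at hu
        simpa using mul_mem hu (inv_mem hs')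
  obtain ⟨p⟩ := gam_connected.preconnected 1 g
  exact key 1 g p (one_mem _)

theorem one_ended (F : Finset Lamp) : ∃ F' : Finset Lamp, ∀ a b : Lamp, a ∉ F' → b ∉ F' →
    ∃ p : Gam.Walk a b, ∀ v ∈ p.support, v ∉ F := by
  obtain ⟨R, hR0, hR⟩ : ∃ R : ℤ, 0 ≤ R ∧ ∀ g ∈ F, ¬ Big R g := by
    induction F using Finset.induction_on with
    | empty => exact ⟨0, le_rfl, by simp⟩
    | insert g F hg ih =>
      obtain ⟨R, hR0, hR⟩ := ih
      refine ⟨R + |g.pos| + ∑ z ∈ g.conf, |z|, ?_, ?_⟩
      · have h1 : 0 ≤ ∑ z ∈ g.conf, |z| := Finset.sum_nonneg (fun _ _ => abs_nonneg _)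
        have h2 := abs_nonneg g.pos
        omega
      · intro h hh hb
        have h1 : 0 ≤ ∑ z ∈ g.conf, |z| := Finset.sum_nonneg (fun _ _ => abs_nonneg _)
        have h2 := abs_nonneg g.pos
        rw [Finset.mem_insert] at hh
        rcases hh with rfl | hh
        · rcases hb with hb | ⟨z, hz, hb⟩
          · omega
          · have := Finset.single_le_sum (f := fun z : ℤ => |z|) (fun _ _ => abs_nonneg _) hz
            omega
        · apply hR h hh
          rcases hb with hb | ⟨z, hz, hb⟩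
          · left; omega
          · right; exact ⟨z, hz, by omega⟩
  refine ⟨((Finset.Icc (-R) R).powerset ×ˢ (Finset.Icc (-R) R)).image (fun q => ⟨q.1, q.2⟩), ?_⟩
  have hbig : ∀ a : Lamp, a ∉ ((Finset.Icc (-R) R).powerset ×ˢ (Finset.Icc (-R) R)).image
      (fun q => (⟨q.1, q.2⟩ : Lamp)) → Big R a := by
    intro a ha
    by_contra hb
    apply ha
    unfold Big at hb
    push Not at hb
    simp only [Finset.mem_image, Finset.mem_product, Finset.mem_powerset, Prod.exists]
    refine ⟨a.conf, a.pos, ⟨?_, ?_⟩, rfl⟩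
    · intro z hz
      have := hb.2 z hz
      rw [abs_le] at this
      simpa using this
    · have := hb.1
      rw [abs_le] at this
      simpa using this
  intro a b ha hb
  obtain ⟨p, hp⟩ := conn_all (R := R) (g := a) (h := b) (by omega) (hbig a ha) (hbig b hb)
  exact ⟨p, fun v hv hvF => hR v hvF (hp v hv)⟩

/-- Two lamp states agree outside the window of radius M. -/
def Near (M : ℕ) (g h : Lamp) : Prop :=
  |g.pos - h.pos| ≤ M ∧ ∀ z : ℤ, (M : ℤ) < |z - g.pos| → (z ∈ g.conf ↔ z ∈ h.conf)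

theorem near_walk (g h : Lamp) (p : Gam.Walk g h) : Near p.length g h := by
  induction p with
  | nil => exact ⟨by simp, fun z _ => Iff.rfl⟩
  | @cons u v w hadj p ih =>
    rw [gam_adj'] at hadj
    obtain ⟨ih1, ih2⟩ := ih
    rw [SimpleGraph.Walk.length_cons]
    rw [abs_le] at ih1
    unfold Near
    push_cast
    rcases hadj with ⟨h1, h2⟩ | ⟨h1, h2⟩
    · refine ⟨by rw [abs_le]; omega, fun z hz => ?_⟩
      rw [← ih2 z (by rw [lt_abs] at hz ⊢; omega), h1]
    · refine ⟨by rw [abs_le]; omega, fun z hz => ?_⟩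
      rw [← ih2 z (by rw [lt_abs] at hz ⊢; omega), h2]
      have : z ≠ u.pos := by
        rintro rfl
        simp at hz
        omega
      simp [Finset.mem_symmDiff, this]

theorem Near.mono {M M' : ℕ} (h : M ≤ M') {g k : Lamp} (hn : Near M g k) : Near M' g k := by
  obtain ⟨h1, h2⟩ := hn
  refine ⟨by have : (M : ℤ) ≤ M' := by exact_mod_cast h
             omega, fun z hz => h2 z ?_⟩
  have : (M : ℤ) ≤ M' := by exact_mod_cast h
  omega

theorem near_of_dist {M : ℕ} {g h : Lamp} (hd : Gam.dist g h ≤ M) : Near M g h := by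
  obtain ⟨p, hp⟩ := (gam_connected.preconnected g h).exists_walk_length_eq_dist
  exact (near_walk g h p).mono (by omega)

end Pool.Agent.Lamp28
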