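import Pool.Agent.Lamp28.Conn

set_option autoImplicit false

namespace Pool.Agent.Lamp28

/-- Gray code. -/
def gray (i : ℕ) : ℕ := i ^^^ (i / 2)

theorem testBit_gray (i p : ℕ) : (gray i).testBit p = (i.testBit p ^^ i.testBit (p + 1)) := by
  unfold gray
  rw [Nat.testBit_xor, Nat.testBit_div_two]

/-- The lamp switched at stage i. -/
def ht (i : ℕ) : ℕ := padicValNat 2 (i + 1)

theorem dvd_iff_ht (i p : ℕ) : 2 ^ p ∣ i + 1 ↔ p ≤ ht i := by
  unfold ht
  rw [padicValNat_dvd_iff_le (by omega)]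

theorem testBit_succ_eq (i p : ℕ) : (i + 1).testBit p = (i.testBit p ^^ decide (p ≤ ht i)) := by
  rw [Nat.testBit_eq_decide_div_mod_eq, Nat.testBit_eq_decide_div_mod_eq, Nat.succ_div]
  by_cases h : p ≤ ht i
  · have h' := (dvd_iff_ht i p).2 h
    rw [if_pos h']
    simp only [h, decide_true, Bool.xor_true]
    rcases Nat.mod_two_eq_zero_or_one (i / 2 ^ p) with h1 | h1
    · have : (i / 2 ^ p + 1) % 2 = 1 := by omega
      simp [h1, this]
    · have : (i / 2 ^ p + 1) % 2 = 0 := by omega
      simp [h1, this]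
  · have h' : ¬ 2 ^ p ∣ i + 1 := fun hh => h ((dvd_iff_ht i p).1 hh)
    rw [if_neg h']
    simp [h]

theorem testBit_gray_succ (i p : ℕ) :
    (gray (i + 1)).testBit p = ((gray i).testBit p ^^ decide (p = ht i)) := by
  rw [testBit_gray, testBit_gray, testBit_succ_eq, testBit_succ_eq]
  by_cases h1 : p = ht i
  · subst h1
    simp
  · by_cases h2 : p ≤ ht i
    · have h3 : p + 1 ≤ ht i := by omega
      simp [h1, h2, h3]
    · have h3 : ¬ p + 1 ≤ ht i := by omega
      simp [h1, h2, h3]

theorem div_eq_of_gray {a b k : ℕ} (h : ∀ p, k ≤ p → (gray a).testBit p = (gray b).testBit p) :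
    a / 2 ^ k = b / 2 ^ k := by
  have hbig : ∀ n p : ℕ, n ≤ p → n.testBit p = false := by
    intro n p hnp
    apply Nat.testBit_lt_two_pow
    exact lt_of_le_of_lt hnp Nat.lt_two_pow_self
  have key : ∀ d p : ℕ, a + b + k ≤ p + d → k ≤ p → a.testBit p = b.testBit p := by
    intro d
    induction d with
    | zero =>
      intro p hp _
      rw [hbig a p (by omega), hbig b p (by omega)]
    | succ d ih =>
      intro p hp hk
      have h1 := ih (p + 1) (by omega) (by omega)
      have h2 := h p hk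
      rw [testBit_gray, testBit_gray, h1] at h2
      simpa using h2
  apply Nat.eq_of_testBit_eq
  intro p
  rw [Nat.testBit_div_two_pow, Nat.testBit_div_two_pow]
  exact key (a + b + k) (p + k) (by omega) (by omega)

theorem gray_surj (n : ℕ) : ∃ i, gray i = n := by
  induction n using Nat.strong_induction_on with
  | _ n ih =>
    by_cases hn : n = 0
    · exact ⟨0, by rw [hn]; rfl⟩
    obtain ⟨i, hi⟩ := ih (n / 2) (by omega)
    refine ⟨Nat.bit (n.testBit 0 ^^ i.testBit 0) i, ?_⟩
    apply Nat.eq_of_testBit_eq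
    intro p
    rw [testBit_gray]
    cases p with
    | zero =>
      rw [Nat.testBit_bit_zero, Nat.testBit_bit_succ]
      cases n.testBit 0 <;> cases i.testBit 0 <;> rfl
    | succ p =>
      rw [Nat.testBit_bit_succ, Nat.testBit_bit_succ, ← testBit_gray, hi, Nat.testBit_div_two]

/-- The data configuration with index i, as a finite set of nonnegative integers. -/
def dat (i : ℕ) : Finset ℤ := (gray i).bitIndices.toFinset.map Nat.castEmbedding

theorem mem_dat_nat (i p : ℕ) : (p : ℤ) ∈ dat i ↔ (gray i).testBit p = true := by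
  unfold dat
  simp

theorem nonneg_of_mem_dat {i : ℕ} {z : ℤ} (h : z ∈ dat i) : 0 ≤ z := by
  unfold dat at h
  simp only [Finset.mem_map, Nat.castEmbedding_apply] at h
  obtain ⟨a, -, rfl⟩ := h
  exact Int.natCast_nonneg a

theorem dat_surj (A : Finset ℤ) (hA : ∀ z ∈ A, 0 ≤ z) : ∃ i, dat i = A := by
  obtain ⟨i, hi⟩ := gray_surj (Finset.equivBitIndices.symm (A.image Int.toNat))
  refine ⟨i, ?_⟩
  have h1 : (gray i).bitIndices.toFinset = A.image Int.toNat := by
    rw [hi]
    exact Finset.equivBitIndices.apply_symm_apply _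
  unfold dat
  rw [h1]
  ext z
  simp only [Finset.mem_map, Finset.mem_image, Nat.castEmbedding_apply, exists_exists_and_eq_and]
  constructor
  · rintro ⟨a, ha, rfl⟩
    rwa [Int.toNat_of_nonneg (hA a ha)]
  · intro hz
    exact ⟨z, hz, Int.toNat_of_nonneg (hA z hz)⟩

theorem dat_succ (i : ℕ) : dat (i + 1) = symmDiff (dat i) {(ht i : ℤ)} := by
  ext z
  rcases lt_or_ge z 0 with hz | hz
  · have h1 : z ∉ dat (i + 1) := fun h => by have := nonneg_of_mem_dat h; omega
    have h2 : z ∉ dat i := fun h => by have := nonneg_of_mem_dat h; omega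
    have h3 : z ≠ (ht i : ℤ) := by omega
    simp [Finset.mem_symmDiff, h1, h2, h3]
  · obtain ⟨p, rfl⟩ := Int.eq_ofNat_of_zero_le hz
    rw [Finset.mem_symmDiff, mem_dat_nat, mem_dat_nat, testBit_gray_succ, Finset.mem_singleton]
    by_cases hp : p = ht i
    · subst hp
      simp
    · have : ((p : ℤ) ≠ (ht i : ℤ)) := by exact_mod_cast hp
      simp [hp]

theorem div_eq_of_dat {a b k : ℕ} (h : ∀ z : ℤ, (k : ℤ) ≤ z → (z ∈ dat a ↔ z ∈ dat b)) :
    a / 2 ^ k = b / 2 ^ k := by
  apply div_eq_of_gray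
  intro p hp
  have := h p (by exact_mod_cast hp)
  rw [mem_dat_nat, mem_dat_nat] at this
  exact Bool.eq_iff_iff.2 this

end Pool.Agent.Lamp28
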