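import Mathlib

set_option autoImplicit false

namespace Pool.Agent.Lamp28

/-- Element of the lamplighter group: a finite set of lit lamps and a position. -/
@[ext]
structure Lamp where
  conf : Finset ℤ
  pos : ℤ
deriving DecidableEq

/-- Shift of a finite set of integers. -/
def sh (m : ℤ) (A : Finset ℤ) : Finset ℤ := A.map (Equiv.addLeft m).toEmbedding

theorem mem_sh {m z : ℤ} {A : Finset ℤ} : z ∈ sh m A ↔ z - m ∈ A := by
  unfold sh
  simp only [Finset.mem_map, Equiv.coe_toEmbedding, Equiv.coe_addLeft]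
  constructor
  · rintro ⟨a, ha, rfl⟩
    simpa using ha
  · intro h
    exact ⟨z - m, h, by ring⟩

instance : Mul Lamp := ⟨fun g h => ⟨symmDiff g.conf (sh g.pos h.conf), g.pos + h.pos⟩⟩
instance : One Lamp := ⟨⟨∅, 0⟩⟩
instance : Inv Lamp := ⟨fun g => ⟨sh (-g.pos) g.conf, -g.pos⟩⟩

@[simp] theorem mul_conf (g h : Lamp) : (g * h).conf = symmDiff g.conf (sh g.pos h.conf) := rfl
@[simp] theorem mul_pos' (g h : Lamp) : (g * h).pos = g.pos + h.pos := rfl
@[simp] theorem one_conf : (1 : Lamp).conf = ∅ := rfl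
@[simp] theorem one_pos' : (1 : Lamp).pos = 0 := rfl
@[simp] theorem inv_conf (g : Lamp) : (g⁻¹).conf = sh (-g.pos) g.conf := rfl
@[simp] theorem inv_pos' (g : Lamp) : (g⁻¹).pos = -g.pos := rfl

instance : Group Lamp :=
  Group.ofLeftAxioms
    (by
      intro a b c
      ext z
      · simp only [mul_conf, mul_pos', Finset.mem_symmDiff, mem_sh]
        rw [show z - (a.pos + b.pos) = z - a.pos - b.pos by ring]
        tauto
      · simp [add_assoc])
    (by
      intro a
      ext z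
      · simp [Finset.mem_symmDiff, mem_sh]
      · simp)
    (by
      intro a
      ext z
      · simp [Finset.mem_symmDiff, mem_sh]
      · simp)

/-- The step generator. -/
def gt : Lamp := ⟨∅, 1⟩
/-- The lamp generator. -/
def ga : Lamp := ⟨{0}, 0⟩

/-- Generating set. -/
def gens : Finset Lamp := {gt, ga}

/-- Cayley graph adjacency in coordinates. -/
def CAdj (g h : Lamp) : Prop :=
  (h.conf = g.conf ∧ (h.pos = g.pos + 1 ∨ g.pos = h.pos + 1)) ∨
    (h.pos = g.pos ∧ h.conf = symmDiff g.conf {g.pos})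

theorem mul_gt (g : Lamp) : g * gt = ⟨g.conf, g.pos + 1⟩ := by
  ext z
  · simp [gt, Finset.mem_symmDiff, mem_sh]
  · simp [gt]

theorem mul_ga (g : Lamp) : g * ga = ⟨symmDiff g.conf {g.pos}, g.pos⟩ := by
  ext z
  · simp [ga, Finset.mem_symmDiff, mem_sh, sub_eq_zero]
  · simp [ga]

/-- The Cayley graph. -/
def Gam : SimpleGraph Lamp where
  Adj g h := g ≠ h ∧ ∃ s ∈ gens, h = g * s ∨ g = h * s
  symm := ⟨by
    rintro g h ⟨h1, s, hs, h2⟩
    exact ⟨h1.symm, s, hs, h2.symm⟩⟩
  loopless := ⟨by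
    rintro g ⟨h1, -⟩
    exact h1 rfl⟩

theorem gam_adj (g h : Lamp) : Gam.Adj g h ↔ (g ≠ h ∧ ∃ s ∈ gens, h = g * s ∨ g = h * s) := Iff.rfl

theorem gam_adj' (g h : Lamp) : Gam.Adj g h ↔ CAdj g h := by
  rw [gam_adj]
  unfold CAdj gens
  simp only [Finset.mem_insert, Finset.mem_singleton, exists_eq_or_imp, exists_eq_left, mul_gt, mul_ga]
  constructor
  · rintro ⟨-, (h1 | h1) | (h1 | h1)⟩
    · left; rw [h1]; simp
    · left; rw [h1]; simp
    · right; rw [h1]; simp
    · right
      rw [h1]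
      refine ⟨rfl, ?_⟩
      ext z
      simp
  · intro h1
    have hne : g ≠ h := by
      rintro rfl
      rcases h1 with ⟨-, h1⟩ | ⟨-, h1⟩
      · omega
      · have : g.pos ∈ g.conf ↔ g.pos ∈ symmDiff g.conf {g.pos} := by rw [← h1]
        simp [Finset.mem_symmDiff] at this
    refine ⟨hne, ?_⟩
    rcases h1 with ⟨h1, h2 | h2⟩ | ⟨h1, h2⟩
    · left; left; ext z <;> simp [h1, h2]
    · left; right; ext z <;> simp [h1, h2]
    · right; left; ext z <;> simp [h1, h2]

end Pool.Agent.Lamp28
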