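import Pool.Agent.Lamp28.Path

set_option autoImplicit false

namespace Pool.Agent.Lamp28

theorem mem_st {a i r : ℕ} {z : ℤ} :
    z ∈ (st a i r).conf ↔ z ∈ dat a ∨ (rho i ≤ r ∧ z = -(rho i : ℤ)) := by
  unfold st
  split_ifs with h
  · have : ¬ rho i ≤ r := by omega
    simp [this]
  · have : rho i ≤ r := by omega
    simp only [Finset.mem_insert, this, true_and]
    tauto

theorem st_pos_lt {a i r : ℕ} (h : r < rho i) : (st a i r).pos = -(r : ℤ) := by
  unfold st; rw [if_pos h]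

theorem st_pos_ge {a i r : ℕ} (h : rho i ≤ r) : (st a i r).pos = (r : ℤ) - 2 * rho i := by
  unfold st; rw [if_neg (by omega)]

theorem rho_mod {i j k : ℕ} (h : rho i = rho j) (hi : k ≤ ht i + 1) (hj : k ≤ ht j + 1) :
    i % 4 ^ k = j % 4 ^ k := by
  unfold rho at h
  have h' : i % 4 ^ (ht i + 1) = j % 4 ^ (ht j + 1) := by omega
  rw [← Nat.mod_mod_of_dvd i (pow_dvd_pow 4 hi), h', Nat.mod_mod_of_dvd j (pow_dvd_pow 4 hj)]

theorem near_div {M : ℕ} {a i r b j s k : ℕ} (hn : Near M (st a i r) (st b j s))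
    (hk : (st a i r).pos + M < k) : a / 2 ^ k = b / 2 ^ k := by
  apply div_eq_of_dat
  intro z hz
  have h1 := hn.2 z (by rw [lt_abs]; left; omega)
  rw [mem_st, mem_st] at h1
  have hri := one_le_rho i
  have hrj := one_le_rho j
  have e1 : ¬ (rho i ≤ r ∧ z = -(rho i : ℤ)) := by rintro ⟨-, h⟩; omega
  have e2 : ¬ (rho j ≤ s ∧ z = -(rho j : ℤ)) := by rintro ⟨-, h⟩; omega
  simpa [e1, e2] using h1

theorem near_rho_left {M : ℕ} {a i r b j s : ℕ} (hn : Near M (st a i r) (st b j s))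
    (hr : rho i ≤ r) (hv : (M : ℤ) < |-(rho i : ℤ) - (st a i r).pos|) : rho j ≤ s ∧ rho i = rho j := by
  have h1 := (hn.2 _ hv).1 (mem_st.2 (Or.inr ⟨hr, rfl⟩))
  rcases mem_st.1 h1 with h2 | ⟨h2, h3⟩
  · exact absurd h2 (neg_rho_notMem b i)
  · exact ⟨h2, by omega⟩

theorem near_rho_right {M : ℕ} {a i r b j s : ℕ} (hn : Near M (st a i r) (st b j s))
    (hs : rho j ≤ s) (hv : (M : ℤ) < |-(rho j : ℤ) - (st a i r).pos|) : rho i ≤ r ∧ rho i = rho j := by
  have h1 := (hn.2 _ hv).2 (mem_st.2 (Or.inr ⟨hs, rfl⟩))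
  rcases mem_st.1 h1 with h2 | ⟨h2, h3⟩
  · exact absurd h2 (neg_rho_notMem a j)
  · exact ⟨h2, by omega⟩

theorem eq_of_mod {a b i j k k' : ℕ} (hab : a / 2 ^ k = b / 2 ^ k) (ha : a = i ∨ a = i + 1)
    (hb : b = j ∨ b = j + 1) (hm : i % 4 ^ k' = j % 4 ^ k') (hk : k < 2 * k') : i = j := by
  have hpos : 0 < 2 ^ k := by positivity
  have h4 : 2 ^ k < 4 ^ k' := by
    rw [show (4 : ℕ) = 2 ^ 2 by norm_num, ← pow_mul]
    exact Nat.pow_lt_pow_right (by norm_num) hk
  have e1 := Nat.div_add_mod a (2 ^ k)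
  have e2 := Nat.div_add_mod b (2 ^ k)
  have f1 := Nat.mod_lt a hpos
  have f2 := Nat.mod_lt b hpos
  rw [hab] at e1
  have g1 := Nat.div_add_mod i (4 ^ k')
  have g2 := Nat.div_add_mod j (4 ^ k')
  rw [hm] at g1
  rcases lt_trichotomy (i / 4 ^ k') (j / 4 ^ k') with h | h | h
  · have : 4 ^ k' * (i / 4 ^ k' + 1) ≤ 4 ^ k' * (j / 4 ^ k') := Nat.mul_le_mul_left _ h
    rw [mul_add, mul_one] at this
    exfalso
    rcases ha with rfl | rfl <;> rcases hb with rfl | rfl <;> omega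
  · exact g1.symm.trans (by rw [h]; exact g2)
  · have : 4 ^ k' * (j / 4 ^ k' + 1) ≤ 4 ^ k' * (i / 4 ^ k') := Nat.mul_le_mul_left _ h
    rw [mul_add, mul_one] at this
    exfalso
    rcases ha with rfl | rfl <;> rcases hb with rfl | rfl <;> omega

/-- The time relation of an anchor triple. -/
def At (n a i r : ℕ) : Prop :=
  r ≤ len i ∧ ((a = i ∧ n = tim i + r) ∨ (a = i + 1 ∧ n + r = tim (i + 1)))

theorem At.anchor {n a i r : ℕ} (h : At n a i r) : a = i ∨ a = i + 1 := by
  rcases h with ⟨-, ⟨h, -⟩ | ⟨h, -⟩⟩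
  · exact Or.inl h
  · exact Or.inr h

theorem path_anchor (n : ℕ) : ∃ a i r, At n a i r ∧ path n = st a i r := by
  obtain ⟨h1, h2⟩ := sq_valid n
  unfold path stage
  by_cases h : (sq n).2 ≤ len (sq n).1
  · rw [if_pos h]
    exact ⟨_, _, _, ⟨h, Or.inl ⟨rfl, h2⟩⟩, rfl⟩
  · rw [if_neg h]
    refine ⟨_, _, _, ⟨by omega, Or.inr ⟨rfl, ?_⟩⟩, rfl⟩
    rw [tim]
    omega

theorem At.abs_tim {n a i r : ℕ} (h : At n a i r) : |(n : ℤ) - tim a| ≤ r := by
  rcases h with ⟨-, ⟨rfl, h⟩ | ⟨rfl, h⟩⟩ <;> rw [abs_le] <;> omega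

theorem At.abs_same {n n' a i r s : ℕ} (h : At n a i r) (h' : At n' a i s) :
    |(n : ℤ) - n'| = |(r : ℤ) - s| := by
  rcases h with ⟨-, ⟨h1, h2⟩ | ⟨h1, h2⟩⟩ <;> rcases h' with ⟨-, ⟨h3, h4⟩ | ⟨h3, h4⟩⟩
  · congr 1; omega
  · omega
  · omega
  · rw [abs_sub_comm (r : ℤ)]; congr 1; omega

/-- Bound on the time spent in a block. -/
theorem tim_block {k : ℕ} {a b : ℕ} (hab : a ≤ b) (h : a / 2 ^ k = b / 2 ^ k) :
    tim b ≤ tim a + (b - a) * (2 * (2 * 4 ^ k + k) + 1) := by
  obtain ⟨d, rfl⟩ := Nat.exists_eq_add_of_le hab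
  induction d with
  | zero => simp
  | succ d ih =>
    have hpos : 0 < 2 ^ k := by positivity
    have h1 : a / 2 ^ k = (a + d) / 2 ^ k := by
      apply le_antisymm
      · exact Nat.div_le_div_right (by omega)
      · rw [h]; exact Nat.div_le_div_right (by omega)
    have h2 := ih (by omega) h1
    have h3 : ¬ 2 ^ k ∣ (a + d) + 1 := by
      intro hd
      have h4 := Nat.succ_div (a := a + d) (b := 2 ^ k)
      rw [if_pos hd] at h4
      rw [← add_assoc] at h
      omega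
    rw [dvd_iff_ht] at h3
    have h5 := rho_le (a + d)
    have h6 : 4 ^ (ht (a + d) + 1) ≤ 4 ^ k := Nat.pow_le_pow_right (by norm_num) (by omega)
    have h7 : len (a + d) ≤ 2 * 4 ^ k + k := by unfold len; omega
    rw [← add_assoc, tim]
    have e1 : a + d + 1 - a = (a + d - a) + 1 := by omega
    rw [e1, add_mul, one_mul]
    omega

theorem tim_mono {a b : ℕ} (h : a ≤ b) : tim a ≤ tim b := by
  induction h with
  | refl => exact le_rfl
  | step _ ih => rw [tim]; omega

theorem tim_block' {k : ℕ} {a b : ℕ} (h : a / 2 ^ k = b / 2 ^ k) :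
    |(tim a : ℤ) - tim b| ≤ ((2 ^ k * (2 * (2 * 4 ^ k + k) + 1) : ℕ) : ℤ) := by
  have hpos : 0 < 2 ^ k := by positivity
  have e1 := Nat.div_add_mod a (2 ^ k)
  have e2 := Nat.div_add_mod b (2 ^ k)
  have f1 := Nat.mod_lt a hpos
  have f2 := Nat.mod_lt b hpos
  rw [h] at e1
  rcases le_total a b with hab | hab
  · have h1 := tim_block hab h
    have h2 := tim_mono hab
    have h3 : (b - a) * (2 * (2 * 4 ^ k + k) + 1) ≤ 2 ^ k * (2 * (2 * 4 ^ k + k) + 1) :=
      Nat.mul_le_mul_right _ (by omega)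
    generalize 2 ^ k * (2 * (2 * 4 ^ k + k) + 1) = P at *
    rw [abs_le]
    omega
  · have h1 := tim_block hab h.symm
    have h2 := tim_mono hab
    have h3 : (a - b) * (2 * (2 * 4 ^ k + k) + 1) ≤ 2 ^ k * (2 * (2 * 4 ^ k + k) + 1) :=
      Nat.mul_le_mul_right _ (by omega)
    generalize 2 ^ k * (2 * (2 * 4 ^ k + k) + 1) = P at *
    rw [abs_le]
    omega

theorem ht_not_both (i : ℕ) : ¬ (((ht i : ℤ) ∈ dat i) ↔ ((ht i : ℤ) ∈ dat (i + 1))) := by
  rw [dat_succ, Finset.mem_symmDiff]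
  simp

/-- If a and b are different anchors of the same stage then the lamp at ht is hidden. -/
theorem near_ht {M : ℕ} {a i r b s : ℕ} (hn : Near M (st a i r) (st b i s))
    (ha : a = i ∨ a = i + 1) (hb : b = i ∨ b = i + 1) (hab : a ≠ b) :
    |(ht i : ℤ) - (st a i r).pos| ≤ M := by
  by_contra hv
  push Not at hv
  have h1 := hn.2 _ hv
  rw [mem_st, mem_st] at h1
  have hri := one_le_rho i
  have e1 : ¬ (rho i ≤ r ∧ (ht i : ℤ) = -(rho i : ℤ)) := by rintro ⟨-, h⟩; omega
  have e2 : ¬ (rho i ≤ s ∧ (ht i : ℤ) = -(rho i : ℤ)) := by rintro ⟨-, h⟩; omega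
  simp only [e1, e2, or_false] at h1
  have h2 := ht_not_both i
  rcases ha with rfl | rfl <;> rcases hb with rfl | rfl
  · exact hab rfl
  · exact h2 h1
  · exact h2 h1.symm
  · exact hab rfl

theorem case_right {M : ℕ} {n n' a i r b j s : ℕ} (h1 : At n a i r) (h2 : At n' b j s)
    (hn : Near M (st a i r) (st b j s)) (hx : 3 * (M : ℤ) < (st a i r).pos) :
    |(n : ℤ) - n'| ≤ 3 * M + 1 := by
  have hd := hn.1
  rw [abs_le] at hd
  have hr : rho i ≤ r := by
    by_contra h
    rw [st_pos_lt (by omega)] at hx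
    omega
  have hs : rho j ≤ s := by
    by_contra h
    rw [st_pos_lt (a := b) (i := j) (r := s) (by omega)] at hd
    omega
  have hri := one_le_rho i
  obtain ⟨-, hrho⟩ := near_rho_left hn hr (by rw [lt_abs]; right; omega)
  have hpx := st_pos_ge (a := a) hr
  have hpy := st_pos_ge (a := b) hs
  have hlr := h1.1
  have hls := h2.1
  unfold len at hlr hls
  have hij : i = j := by
    have hk := near_div (k := r - 2 * rho i + M + 1) hn (by omega)
    have hm := rho_mod (k := min (ht i) (ht j) + 1) hrho (by omega) (by omega)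
    exact eq_of_mod hk h1.anchor h2.anchor hm (by omega)
  subst hij
  by_cases hab : a = b
  · subst hab
    rw [h1.abs_same h2, abs_le]
    omega
  · have hh := near_ht hn h1.anchor h2.anchor hab
    rw [abs_le] at hh
    have e1 := h1.2
    have e2 := h2.2
    rw [tim] at e1 e2
    unfold len at e1 e2
    rw [abs_le]
    rcases e1 with ⟨e3, e4⟩ | ⟨e3, e4⟩ <;> rcases e2 with ⟨e5, e6⟩ | ⟨e5, e6⟩ <;> omega

theorem st_pos_ge_neg (a i r : ℕ) : -(rho i : ℤ) ≤ (st a i r).pos := by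
  unfold st
  split_ifs with h
  · show -(rho i : ℤ) ≤ -(r : ℤ)
    omega
  · show -(rho i : ℤ) ≤ (r : ℤ) - 2 * rho i
    omega

theorem ht_pos_of_rho {i : ℕ} (h : 4 < rho i) : 2 ∣ i + 1 := by
  have h1 : 1 ≤ ht i := by
    by_contra h0
    have h2 := rho_le i
    rw [show ht i = 0 by omega] at h2
    norm_num at h2
    omega
  have := (dvd_iff_ht i 1).2 h1
  simpa using this

theorem case_left {M : ℕ} {n n' a i r b j s : ℕ} (h1 : At n a i r) (h2 : At n' b j s)
    (hn : Near M (st a i r) (st b j s)) (hx : (st a i r).pos + M + 4 < 0) :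
    |(n : ℤ) - n'| ≤ 3 * M + 1 := by
  have hd := hn.1
  rw [abs_le] at hd
  have hab := near_div (k := 0) hn (by push_cast; omega)
  rw [pow_zero, Nat.div_one, Nat.div_one] at hab
  subst hab
  have hri := st_pos_ge_neg a i r
  have hrj := st_pos_ge_neg a j s
  have hpi := ht_pos_of_rho (i := i) (by omega)
  have hpj := ht_pos_of_rho (i := j) (by omega)
  have hij : i = j := by
    rcases h1.anchor with h3 | h3 <;> rcases h2.anchor with h4 | h4 <;> omega
  subst hij
  rw [h1.abs_same h2]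
  have hpos := one_le_rho i
  by_cases hr : rho i ≤ r
  · have hpx := st_pos_ge (a := a) hr
    by_cases hs : rho i ≤ s
    · have hpy := st_pos_ge (a := a) hs
      rw [abs_le]; omega
    · have hpy := st_pos_lt (a := a) (i := i) (r := s) (by omega)
      have hh : |-(rho i : ℤ) - (st a i r).pos| ≤ M := by
        by_contra hv
        push Not at hv
        exact hs (near_rho_left hn hr hv).1
      rw [abs_le] at hh
      rw [abs_le]; omega
  · have hpx := st_pos_lt (a := a) (i := i) (r := r) (by omega)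
    by_cases hs : rho i ≤ s
    · have hpy := st_pos_ge (a := a) hs
      have hh : |-(rho i : ℤ) - (st a i r).pos| ≤ M := by
        by_contra hv
        push Not at hv
        exact hr (near_rho_right hn hs hv).1
      rw [abs_le] at hh
      rw [abs_le]; omega
    · have hpy := st_pos_lt (a := a) (i := i) (r := s) (by omega)
      rw [abs_le]; omega

/-- Bound used in the middle case. -/
def bd (M : ℕ) : ℕ :=
  2 ^ (4 * M + 5) * (2 * (2 * 4 ^ (4 * M + 5) + (4 * M + 5)) + 1) + 2 * (2 * 4 ^ (4 * M + 5) + (4 * M + 5))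

theorem case_mid {M : ℕ} {n n' a i r b j s : ℕ} (h1 : At n a i r) (h2 : At n' b j s)
    (hn : Near M (st a i r) (st b j s)) (hx : 0 ≤ (st a i r).pos + M + 4)
    (hx' : (st a i r).pos ≤ 3 * M) :
    |(n : ℤ) - n'| ≤ M + bd M := by
  have hd := hn.1
  rw [abs_le] at hd
  have hk4 : 4 * M + 5 < 4 ^ (4 * M + 5) := Nat.lt_pow_self (by norm_num)
  have hab := near_div (k := 4 * M + 5) hn (by push_cast; omega)
  by_cases hC : (rho i ≤ r ∧ 4 ^ (4 * M + 5) < rho i) ∨ (rho j ≤ s ∧ 4 ^ (4 * M + 5) < rho j)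
  · have hboth : rho i ≤ r ∧ rho j ≤ s ∧ rho i = rho j ∧ 4 ^ (4 * M + 5) < rho i ∧ 4 ^ (4 * M + 5) < rho j := by
      rcases hC with ⟨h3, h4⟩ | ⟨h3, h4⟩
      · obtain ⟨h5, h6⟩ := near_rho_left hn h3 (by rw [lt_abs]; right; omega)
        exact ⟨h3, h5, h6, h4, by omega⟩
      · obtain ⟨h5, h6⟩ := near_rho_right hn h3 (by rw [lt_abs]; right; omega)
        exact ⟨h5, h3, h6, by omega, h4⟩
    obtain ⟨hr, hs, hrho, hi4, hj4⟩ := hboth
    have hhi : 4 * M + 5 < ht i + 1 := by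
      have := rho_le i
      exact (Nat.pow_lt_pow_iff_right (a := 4) (by norm_num)).1 (by omega)
    have hhj : 4 * M + 5 < ht j + 1 := by
      have := rho_le j
      exact (Nat.pow_lt_pow_iff_right (a := 4) (by norm_num)).1 (by omega)
    have hm := rho_mod (k := 4 * M + 6) hrho (by omega) (by omega)
    have hij := eq_of_mod hab h1.anchor h2.anchor hm (by omega)
    subst hij
    have hdvd := (dvd_iff_ht i (4 * M + 5)).2 (by omega)
    have hsd := Nat.succ_div (a := i) (b := 2 ^ (4 * M + 5))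
    rw [if_pos hdvd] at hsd
    have hab' : a = b := by
      rcases h1.anchor with rfl | rfl <;> rcases h2.anchor with rfl | rfl <;> omega
    subst hab'
    rw [h1.abs_same h2]
    have hpx := st_pos_ge (a := a) hr
    have hpy := st_pos_ge (a := a) hs
    rw [abs_le]
    omega
  · push Not at hC
    obtain ⟨hC1, hC2⟩ := hC
    have hr : (r : ℤ) ≤ 2 * 4 ^ (4 * M + 5) + (4 * M + 5) := by
      by_cases hr : rho i ≤ r
      · have h3 := hC1 hr
        have hpx := st_pos_ge (a := a) hr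
        have h3' : (rho i : ℤ) ≤ 4 ^ (4 * M + 5) := by exact_mod_cast h3
        omega
      · have hpx := st_pos_lt (a := a) (i := i) (r := r) (by omega)
        have : (0 : ℤ) ≤ 4 ^ (4 * M + 5) := by positivity
        omega
    have hs : (s : ℤ) ≤ 2 * 4 ^ (4 * M + 5) + (4 * M + 5) := by
      by_cases hs : rho j ≤ s
      · have h3 := hC2 hs
        have hpx := st_pos_ge (a := b) hs
        have h3' : (rho j : ℤ) ≤ 4 ^ (4 * M + 5) := by exact_mod_cast h3
        omega
      · have hpx := st_pos_lt (a := b) (i := j) (r := s) (by omega)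
        have : (0 : ℤ) ≤ 4 ^ (4 * M + 5) := by positivity
        omega
    have e1 := h1.abs_tim
    have e2 := h2.abs_tim
    have e3 := tim_block' hab
    unfold bd
    push_cast at e3 ⊢
    rw [abs_le] at *
    omega

theorem path_proper (M : ℕ) : ∃ N : ℕ, ∀ n n' : ℕ, Gam.dist (path n) (path n') ≤ M →
    |(n : ℤ) - n'| ≤ N := by
  refine ⟨bd M + 3 * M + 1, fun n n' hd => ?_⟩
  have hn := near_of_dist hd
  obtain ⟨a, i, r, h1, h3⟩ := path_anchor n
  obtain ⟨b, j, s, h2, h4⟩ := path_anchor n'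
  rw [h3, h4] at hn
  push_cast
  rcases lt_or_ge ((st a i r).pos + M + 4) 0 with hx | hx
  · have := case_left h1 h2 hn hx
    omega
  · rcases lt_or_ge (3 * (M : ℤ)) (st a i r).pos with hx' | hx'
    · have := case_right h1 h2 hn hx'
      omega
    · have := case_mid h1 h2 hn hx hx'
      omega

end Pool.Agent.Lamp28
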