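import Pool.Agent.Lamp28.Gray

set_option autoImplicit false

namespace Pool.Agent.Lamp28

/-- Position of the scratch lamp at stage i (it is put at minus this number). -/
def rho (i : ℕ) : ℕ := 1 + i % 4 ^ (ht i + 1)

/-- Half length of stage i. -/
def len (i : ℕ) : ℕ := 2 * rho i + ht i

/-- Start time of stage i. -/
def tim : ℕ → ℕ
  | 0 => 0
  | i + 1 => tim i + (2 * len i + 1)

/-- State at anchor a, stage i, offset r. -/
def st (a i r : ℕ) : Lamp :=
  if r < rho i then ⟨dat a, -(r : ℤ)⟩ else ⟨insert (-(rho i : ℤ)) (dat a), (r : ℤ) - 2 * rho i⟩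

/-- State at stage i, phase u. -/
def stage (i u : ℕ) : Lamp :=
  if u ≤ len i then st i i u else st (i + 1) i (2 * len i + 1 - u)

/-- Advance a pair (stage, phase). -/
def nxt (q : ℕ × ℕ) : ℕ × ℕ :=
  if q.2 < 2 * len q.1 then (q.1, q.2 + 1) else (q.1 + 1, 0)

/-- The sequence of pairs. -/
def sq : ℕ → ℕ × ℕ
  | 0 => (0, 0)
  | n + 1 => nxt (sq n)

/-- The path. -/
def path (n : ℕ) : Lamp := stage (sq n).1 (sq n).2

theorem one_le_rho (i : ℕ) : 1 ≤ rho i := by unfold rho; omega

theorem rho_le (i : ℕ) : rho i ≤ 4 ^ (ht i + 1) := by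
  unfold rho
  have := Nat.mod_lt i (show 0 < 4 ^ (ht i + 1) by positivity)
  omega

theorem sq_valid (n : ℕ) : (sq n).2 ≤ 2 * len (sq n).1 ∧ n = tim (sq n).1 + (sq n).2 := by
  induction n with
  | zero => exact ⟨Nat.zero_le _, rfl⟩
  | succ n ih =>
    obtain ⟨h1, h2⟩ := ih
    show (nxt (sq n)).2 ≤ 2 * len (nxt (sq n)).1 ∧ n + 1 = tim (nxt (sq n)).1 + (nxt (sq n)).2
    unfold nxt
    split_ifs with h
    · refine ⟨?_, ?_⟩
      · show (sq n).2 + 1 ≤ 2 * len (sq n).1
        omega
      · show n + 1 = tim (sq n).1 + ((sq n).2 + 1)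
        omega
    · refine ⟨Nat.zero_le _, ?_⟩
      show n + 1 = tim ((sq n).1 + 1) + 0
      rw [tim]
      omega

theorem sq_tim (i : ℕ) : sq (tim i) = (i, 0) := by
  have key : ∀ i, sq (tim i) = (i, 0) → ∀ u, u ≤ 2 * len i → sq (tim i + u) = (i, u) := by
    intro i hi u
    induction u with
    | zero => intro _; simpa using hi
    | succ u ih =>
      intro hu
      have h1 := ih (by omega)
      show nxt (sq (tim i + u)) = (i, u + 1)
      rw [h1]
      unfold nxt
      rw [if_pos (by show u < 2 * len i; omega)]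
  induction i with
  | zero => rfl
  | succ i ih =>
    have h1 := key i ih (2 * len i) le_rfl
    rw [tim]
    show nxt (sq (tim i + 2 * len i)) = (i + 1, 0)
    rw [h1]
    unfold nxt
    rw [if_neg (by show ¬ 2 * len i < 2 * len i; omega)]

theorem st_zero (a i : ℕ) : st a i 0 = ⟨dat a, 0⟩ := by
  unfold st
  rw [if_pos (by have := one_le_rho i; omega)]
  simp

theorem path_tim (i : ℕ) : path (tim i) = ⟨dat i, 0⟩ := by
  unfold path
  rw [sq_tim]
  unfold stage
  rw [if_pos (Nat.zero_le _), st_zero]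

/-- Adjacent or equal. -/
theorem dist_le_one_of_cadj {g h : Lamp} (ha : CAdj g h) : Gam.dist g h ≤ 1 := by
  have := SimpleGraph.dist_le (SimpleGraph.Walk.cons ((gam_adj' g h).2 ha) SimpleGraph.Walk.nil)
  simpa using this

theorem dist_tri (g h k : Lamp) : Gam.dist g k ≤ Gam.dist g h + Gam.dist h k :=
  gam_connected.dist_triangle

theorem cadj_move (A : Finset ℤ) (m : ℤ) : CAdj ⟨A, m⟩ ⟨A, m + 1⟩ := Or.inl ⟨rfl, Or.inl rfl⟩
theorem cadj_move' (A : Finset ℤ) (m : ℤ) : CAdj ⟨A, m⟩ ⟨A, m - 1⟩ :=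
  Or.inl ⟨rfl, Or.inr (by ring)⟩

theorem insert_eq_symmDiff {A : Finset ℤ} {z : ℤ} (h : z ∉ A) : insert z A = symmDiff A {z} := by
  ext w
  simp only [Finset.mem_insert, Finset.mem_symmDiff, Finset.mem_singleton]
  by_cases hw : w = z
  · subst hw; simp [h]
  · simp [hw]

theorem neg_rho_notMem (a i : ℕ) : (-(rho i : ℤ)) ∉ dat a := by
  intro h
  have h1 := nonneg_of_mem_dat h
  have h2 := one_le_rho i
  omega

/-- Consecutive offsets are at distance at most two. -/
theorem st_step (a i r : ℕ) : Gam.dist (st a i r) (st a i (r + 1)) ≤ 2 := by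
  unfold st
  by_cases h1 : r + 1 < rho i
  · rw [if_pos (by omega), if_pos h1]
    have := dist_le_one_of_cadj (cadj_move' (dat a) (-(r : ℤ)))
    rw [show (-((r + 1 : ℕ) : ℤ)) = -(r : ℤ) - 1 by push_cast; ring]
    omega
  · by_cases h2 : r < rho i
    · rw [if_pos h2, if_neg h1]
      have hr : rho i = r + 1 := by omega
      have e1 := dist_le_one_of_cadj (cadj_move' (dat a) (-(r : ℤ)))
      have e2 : Gam.dist (⟨dat a, -(r : ℤ) - 1⟩ : Lamp) ⟨insert (-(rho i : ℤ)) (dat a),
          ((r + 1 : ℕ) : ℤ) - 2 * rho i⟩ ≤ 1 := by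
        apply dist_le_one_of_cadj
        right
        refine ⟨?_, ?_⟩
        · show ((r + 1 : ℕ) : ℤ) - 2 * rho i = -(r : ℤ) - 1
          rw [hr]; push_cast; ring
        · show insert (-(rho i : ℤ)) (dat a) = symmDiff (dat a) {-(r : ℤ) - 1}
          rw [insert_eq_symmDiff (neg_rho_notMem a i)]
          congr 2
          rw [hr]; push_cast; ring
      exact (dist_tri _ ⟨dat a, -(r : ℤ) - 1⟩ _).trans (by omega)
    · rw [if_neg h2, if_neg (by omega)]
      have := dist_le_one_of_cadj (cadj_move (insert (-(rho i : ℤ)) (dat a)) ((r : ℤ) - 2 * rho i))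
      rw [show (((r + 1 : ℕ) : ℤ) - 2 * rho i) = (r : ℤ) - 2 * rho i + 1 by push_cast; ring]
      omega

theorem st_turn (i : ℕ) : Gam.dist (st i i (len i)) (st (i + 1) i (len i)) ≤ 1 := by
  have h0 := one_le_rho i
  have h1 : ¬ len i < rho i := by unfold len; omega
  unfold st
  rw [if_neg h1, if_neg h1]
  apply dist_le_one_of_cadj
  right
  refine ⟨rfl, ?_⟩
  show insert (-(rho i : ℤ)) (dat (i + 1)) = symmDiff (insert (-(rho i : ℤ)) (dat i)) {(len i : ℤ) - 2 * rho i}
  have h2 : ((len i : ℤ) - 2 * rho i) = ht i := by unfold len; push_cast; ring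
  rw [h2, insert_eq_symmDiff (neg_rho_notMem (i + 1) i), insert_eq_symmDiff (neg_rho_notMem i i), dat_succ,
    symmDiff_right_comm]

theorem stage_step (i u : ℕ) (hu : u ≤ 2 * len i) :
    Gam.dist (stage i u) (stage (nxt (i, u)).1 (nxt (i, u)).2) ≤ 2 := by
  have hrho := one_le_rho i
  have hlen : 2 ≤ len i := by unfold len; omega
  unfold nxt
  split_ifs with h
  · show Gam.dist (stage i u) (stage i (u + 1)) ≤ 2
    have h : u < 2 * len i := h
    unfold stage
    rcases lt_trichotomy u (len i) with h1 | h1 | h1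
    · rw [if_pos (by omega), if_pos (by omega)]
      exact st_step _ _ _
    · rw [if_pos (by omega), if_neg (by omega), h1, show 2 * len i + 1 - (len i + 1) = len i by omega]
      exact (st_turn i).trans (by omega)
    · rw [if_neg (by omega), if_neg (by omega), show 2 * len i + 1 - u = (2 * len i + 1 - (u + 1)) + 1 by omega,
        SimpleGraph.dist_comm]
      exact st_step _ _ _
  · have h : ¬ u < 2 * len i := h
    have hu' : u = 2 * len i := by omega
    subst hu'
    show Gam.dist (stage i (2 * len i)) (stage (i + 1) 0) ≤ 2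
    unfold stage
    rw [if_neg (by omega), if_pos (by omega), show 2 * len i + 1 - 2 * len i = 0 + 1 by omega, st_zero,
      ← st_zero (i + 1) i, SimpleGraph.dist_comm]
    exact st_step _ _ _

theorem path_step (n : ℕ) : Gam.dist (path n) (path (n + 1)) ≤ 2 :=
  stage_step (sq n).1 (sq n).2 (sq_valid n).1

theorem path_lip (m n : ℕ) : Gam.dist (path m) (path (m + n)) ≤ 2 * n := by
  induction n with
  | zero => simp
  | succ n ih =>
    have h1 := dist_tri (path m) (path (m + n)) (path (m + (n + 1)))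
    have h2 := path_step (m + n)
    rw [← add_assoc] at h1 ⊢
    omega

end Pool.Agent.Lamp28
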